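import Pool.Agent.U644.EF.Core

/-!
# The effective Shafarevich conjecture over `ℤ` and counting isogeny classes

Abelian varieties over `ℚ` (given by equations) and tuples of polynomials are numbered; `d` codes the pair `(N_S, g)`.
`AbelianTheory` collects the known facts used.

* Faltings (1983): there is a finite set `V(N_S,g)` of primes, computable from `(N_S,g)` (effective Hermite-Minkowski and
  Chebotarev), such that abelian schemes over `S` of dimension `g` are isogenous if and only if they have the same Frobenius
  polynomials at the primes in `V`.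
* Masser-Wüstholz (explicit: Gaudron-Rémond): between isogenous abelian varieties over `ℚ` there is an isogeny of degree
  bounded effectively in terms of one of them, so the stable Faltings height is bounded in this way too.
* Effective Northcott property: abelian schemes over `S` of dimension `g` with bounded height can be listed up to isomorphism.
* `A ↦ A' = (A × A^∨)⁴ × E^k` for a fixed elliptic curve `E` over `ℚ`: `A'` is principally polarised (Zarhin), has good reduction
  outside `N_S N_E M`, and `8 h_F(A) + k h_F(E) = h_F(A')`; `h_F(A')` is bounded below in terms of the dimension (Bost). Every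
  infinite set `Γ` of dimensions contains `8 g + k` for some `k ≥ 0`.
-/

set_option autoImplicit false

namespace Pool.Agent.Results.MP_07b2d0_nt.CountingIsogenyClasses

/-- Abelian schemes over open subschemes `S` of `Spec ℤ`, with the known facts that are used. A natural number `d` is a code
of the data `(N_S,g)`, and `X` a code of an abelian variety over `ℚ`. -/
structure AbelianTheory where
  /-- `X` is (the code of) the generic fibre of an abelian scheme over `S` of relative dimension `g`, `d` the code of `(N_S,g)` -/
  good : ℕ → ℕ → Prop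
  good_dec : ComputablePred fun p : ℕ × ℕ => good p.1 p.2
  /-- the stable Faltings height -/
  height : ℕ → ℝ
  /-- isogeny over `ℚ` -/
  Isogenous : ℕ → ℕ → Prop
  /-- the tuple of the characteristic polynomials of the Frobenius elements at the primes in `V(N_S,g)` -/
  frob : ℕ → ℕ → ℕ
  frob_comp : Computable₂ frob
  /-- Weil: the Frobenius polynomials of the abelian schemes in question are in an explicit finite set -/
  weil : ℕ → ℕ
  weil_comp : Computable weil
  frob_lt : ∀ d X, good d X → frob d X < weil d
  /-- Faltings -/
  faltings : ∀ d X Y, good d X → good d Y → (frob d X = frob d Y ↔ Isogenous X Y)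
  /-- Masser and Wüstholz -/
  mw : ℕ → ℕ → ℕ
  mw_comp : Computable₂ mw
  mw_spec : ∀ d X Y, good d X → good d Y → Isogenous X Y → height Y ≤ mw d X
  /-- `M` divides `N_S`, `g ∈ Γ`, and `X` is principally polarised (`M ≥ 1` and the infinite decidable set `Γ` of positive
  integers are fixed) -/
  Special : ℕ → ℕ → Prop
  special_dec : ComputablePred fun p : ℕ × ℕ => Special p.1 p.2
  /-- effective Northcott property: the abelian schemes of bounded height can be listed up to isomorphism (`Y` is the listed
  one isomorphic to `X`) -/
  list : ℕ → ℕ → ℕ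
  list_comp : Computable₂ list
  list_spec : ∀ (d X n : ℕ), good d X → height X ≤ n →
    ∃ Y, Y < list d n ∧ good d Y ∧ Isogenous Y X ∧ (Special d X → Special d Y)
  /-- the data of `X' = (X × X^∨)⁴ × E^k` -/
  tau : ℕ → ℕ
  tau_comp : Computable tau
  /-- the constant in the comparison of the heights -/
  cst : ℕ → ℕ
  cst_comp : Computable cst
  zarhin : ∀ d X, good d X → ∃ X', good (tau d) X' ∧ Special (tau d) X' ∧ height X ≤ height X' + cst d

/-- Q1: a bound for the heights can be computed from `(N_S,g)`. -/
def EffectiveShafarevich (T : AbelianTheory) : Prop :=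
  ∃ c : ℕ → ℕ, Computable c ∧ ∀ d X, T.good d X → T.height X ≤ c d

/-- Q1 for the special abelian schemes. -/
def EffectiveShafarevichSpecial (T : AbelianTheory) : Prop :=
  ∃ c : ℕ → ℕ, Computable c ∧ ∀ d X, T.good d X → T.Special d X → T.height X ≤ c d

/-- There is an abelian scheme over `S` of dimension `g` with the Frobenius polynomials `s` at `V`. -/
def Occurs (T : AbelianTheory) (p : ℕ × ℕ) : Prop := ∃ X, T.good p.1 X ∧ T.frob p.1 X = p.2

/-- There is a special abelian scheme over `S` of dimension `g` with the Frobenius polynomials `s` at `V`. -/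
def OccursSpecial (T : AbelianTheory) (p : ℕ × ℕ) : Prop := ∃ X, (T.good p.1 X ∧ T.Special p.1 X) ∧ T.frob p.1 X = p.2

/-- the number of the isogeny classes of the abelian schemes over `S` of dimension `g` -/
noncomputable def classes (T : AbelianTheory) (d : ℕ) : ℕ :=
  Nat.card (Quot fun X Y : {X // T.good d X} => T.Isogenous X Y)

/-- the number of the isogeny classes of the special abelian schemes over `S` of dimension `g` -/
noncomputable def classesSpecial (T : AbelianTheory) (d : ℕ) : ℕ :=
  Nat.card (Quot fun X Y : {X // T.good d X ∧ T.Special d X} => T.Isogenous X Y)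

lemma and_dec {p q : ℕ × ℕ → Prop} (hp : ComputablePred p) (hq : ComputablePred q) :
    ComputablePred fun a => p a ∧ q a := by
  obtain ⟨f, hf, rfl⟩ := ComputablePred.computable_iff.1 hp
  obtain ⟨g, hg, rfl⟩ := ComputablePred.computable_iff.1 hq
  refine ComputablePred.computable_iff.2 ⟨fun a => f a && g a, Primrec.and.to_comp.comp hf hg, ?_⟩
  funext a
  exact propext (Bool.and_eq_true _ _ ▸ Iff.rfl)

def thy (T : AbelianTheory) : Pool.Agent.U644.EF.Thy where
  good := T.good
  good_dec := T.good_dec
  height := T.height
  sig := T.frob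
  sig_comp := T.frob_comp
  sigBound := T.weil
  sigBound_comp := T.weil_comp
  sig_lt := T.frob_lt
  bound := T.mw
  bound_comp := T.mw_comp
  bound_spec := fun d X Y h1 h2 h3 => T.mw_spec d X Y h1 h2 ((T.faltings d X Y h1 h2).1 h3)
  list := T.list
  list_comp := T.list_comp
  list_spec := fun d X n h1 h2 => by
    obtain ⟨Y, h3, h4, h5, -⟩ := T.list_spec d X n h1 h2
    exact ⟨Y, h3, h4, (T.faltings d Y X h4 h1).2 h5⟩

def thySp (T : AbelianTheory) : Pool.Agent.U644.EF.Thy where
  good := fun d X => T.good d X ∧ T.Special d X
  good_dec := and_dec T.good_dec T.special_dec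
  height := T.height
  sig := T.frob
  sig_comp := T.frob_comp
  sigBound := T.weil
  sigBound_comp := T.weil_comp
  sig_lt := fun d X h => T.frob_lt d X h.1
  bound := T.mw
  bound_comp := T.mw_comp
  bound_spec := fun d X Y h1 h2 h3 => T.mw_spec d X Y h1.1 h2.1 ((T.faltings d X Y h1.1 h2.1).1 h3)
  list := T.list
  list_comp := T.list_comp
  list_spec := fun d X n h1 h2 => by
    obtain ⟨Y, h3, h4, h5, h6⟩ := T.list_spec d X n h1.1 h2
    exact ⟨Y, h3, ⟨h4, h6 h1.2⟩, (T.faltings d Y X h4 h1.1).2 h5⟩

/-- isogeny classes are counted by the tuples of polynomials which occur -/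
lemma card_quot (T : AbelianTheory) (d : ℕ) (P : ℕ → Prop) (hP : ∀ X, P X → T.good d X) :
    Nat.card (Quot fun X Y : {X // P X} => T.Isogenous X Y) = Nat.card {s // ∃ X, P X ∧ T.frob d X = s} := by
  let f : {X // P X} → {s // ∃ X, P X ∧ T.frob d X = s} := fun X => ⟨T.frob d X, X, X.2, rfl⟩
  have hf : ∀ X Y : {X // P X}, f X = f Y ↔ T.Isogenous X Y := fun X Y => by
    rw [Subtype.mk.injEq]
    exact T.faltings d X Y (hP _ X.2) (hP _ Y.2)
  let F : Quot (fun X Y : {X // P X} => T.Isogenous X Y) → {s // ∃ X, P X ∧ T.frob d X = s} :=
    Quot.lift f fun X Y h => (hf X Y).2 h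
  refine Nat.card_congr (Equiv.ofBijective F ⟨?_, ?_⟩)
  · intro a b
    obtain ⟨X, rfl⟩ := Quot.exists_rep a
    obtain ⟨Y, rfl⟩ := Quot.exists_rep b
    intro h
    exact Quot.sound ((hf X Y).1 h)
  · rintro ⟨s, X, hX, rfl⟩
    exact ⟨Quot.mk _ ⟨X, hX⟩, rfl⟩

/-- The following are equivalent. (1) Q1: a bound for the heights can be computed from `(N_S,g)`. (2) The same for the special
abelian schemes. (3) It is decidable whether there is an abelian scheme over `S` of dimension `g` with given Frobenius
polynomials at `V(N_S,g)`. (4) The set of the data and polynomials for which there is none is recursively enumerable. (5) The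
number of the isogeny classes of abelian schemes over `S` of dimension `g` can be computed from `(N_S,g)`. (6)-(8) The same for
the special abelian schemes. -/
theorem result (T : AbelianTheory) : List.TFAE [
    EffectiveShafarevich T,
    EffectiveShafarevichSpecial T,
    ComputablePred (Occurs T),
    REPred fun p => ¬ Occurs T p,
    Computable (classes T),
    ComputablePred (OccursSpecial T),
    REPred fun p => ¬ OccursSpecial T p,
    Computable (classesSpecial T)] := by
  have h1 := Pool.Agent.U644.EF.main (thy T)
  have h2 := Pool.Agent.U644.EF.main (thySp T)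
  have e1 : EffectiveShafarevich T ↔ ComputablePred (Occurs T) := h1.out 0 1
  have e2 : ComputablePred (Occurs T) ↔ REPred fun p => ¬ Occurs T p := h1.out 1 2
  have e3 : ComputablePred (Occurs T) ↔ Computable (classes T) := by
    have h3 : ComputablePred (Occurs T) ↔ Computable fun d => Nat.card {s // Occurs T (d, s)} := h1.out 1 3
    rw [h3]
    have h4 : classes T = fun d => Nat.card {s // Occurs T (d, s)} :=
      funext fun d => card_quot T d (T.good d) fun _ h => h
    rw [h4]
  have e4 : EffectiveShafarevichSpecial T ↔ ComputablePred (OccursSpecial T) := by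
    have : (∃ c : ℕ → ℕ, Computable c ∧ ∀ d X, T.good d X ∧ T.Special d X → T.height X ≤ c d) ↔
      ComputablePred (OccursSpecial T) := h2.out 0 1
    rw [← this]
    exact ⟨fun ⟨c, hc, h⟩ => ⟨c, hc, fun d X hX => h d X hX.1 hX.2⟩,
      fun ⟨c, hc, h⟩ => ⟨c, hc, fun d X h1 h2 => h d X ⟨h1, h2⟩⟩⟩
  have e5 : ComputablePred (OccursSpecial T) ↔ REPred fun p => ¬ OccursSpecial T p := h2.out 1 2
  have e6 : ComputablePred (OccursSpecial T) ↔ Computable (classesSpecial T) := by
    have h3 : ComputablePred (OccursSpecial T) ↔ Computable fun d => Nat.card {s // OccursSpecial T (d, s)} :=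
      h2.out 1 3
    rw [h3]
    have h4 : classesSpecial T = fun d => Nat.card {s // OccursSpecial T (d, s)} :=
      funext fun d => card_quot T d (fun X => T.good d X ∧ T.Special d X) fun _ h => h.1
    rw [h4]
  tfae_have 1 → 2 := fun ⟨c, hc, h⟩ => ⟨c, hc, fun d X hX _ => h d X hX⟩
  tfae_have 2 → 1 := by
    rintro ⟨c, hc, h⟩
    refine ⟨fun d => c (T.tau d) + T.cst d, Primrec.nat_add.to_comp.comp (hc.comp T.tau_comp) T.cst_comp, ?_⟩
    intro d X hX
    obtain ⟨X', h3, h4, h5⟩ := T.zarhin d X hX
    have h6 := h _ _ h3 h4
    push_cast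
    linarith
  tfae_have 1 ↔ 3 := e1
  tfae_have 3 ↔ 4 := e2
  tfae_have 3 ↔ 5 := e3
  tfae_have 2 ↔ 6 := e4
  tfae_have 6 ↔ 7 := e5
  tfae_have 6 ↔ 8 := e6
  tfae_finish

end Pool.Agent.Results.MP_07b2d0_nt.CountingIsogenyClasses
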