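import Pool.Agent.U449.BV.V
import Pool.Agent.Results.MP_07b2d0_nt.AlmostAllWeilRestrictions

/-!
# An explicit bound for the Faltings height: invariants near the values of polynomials on arbitrary sets

Let `0 ≤ κ`, `2 - δ' / (2 (1 + δ')) + 2 κ < δ ≤ 2`, let `p` be a large prime, `f(x, y)` ANY polynomial of bounded degree over the field of `p ^ 2` elements
with a monomial which contains both variables (for example `f = x y`), let `A`, `B` be ARBITRARY subsets of this field with at least
`p ^ δ` elements, and `g`, `h` ARBITRARY functions. For all the pairs `(a, b)` in `A × B`, apart from a proportion of at most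
`p ^ (-ρ)`, and for ALL rational numbers `j` whose numerator and denominator are at a distance of at most `p ^ κ` from the least residues of the
two coordinates of `f(a, b) + g(a) + h(b)`: ALL elliptic curves `E` over `ℚ` of
invariant `j` with good reduction outside `N` satisfy `h_F(E) ≤ ((1 + δ') / 12) log N + C`, for all `N ≥ 1`. Here `δ' > 0` is arbitrary, and `C` is an
absolute constant.
More generally, this holds for the values `F(a, b)` of all vector functions of two variables with few coincidences
(`RareV`), on arbitrary finite sets.

Since the sets and the functions `g` and `h` are arbitrary, the vectors have no arithmetic structure, and a vector may be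
taken by very many pairs. So the number of the exceptions (starting library) does not give the result directly. Proof: the
inequality of Cauchy and Schwarz; for most pairs `a, a'` the difference `F(a, b) - F(a', b)` is small for few `b`
(`Pool.Agent.U449.BV`).
-/

set_option autoImplicit false

namespace Pool.Agent.Results.MP_07b2d0_nt.MixedPolynomials

open Pool.Agent.U449.BV (RareV OnProductsV on_products_v coordinates)
open Pool.Agent.Results.MP_07b2d0_nt.AlmostAllWeilRestrictions (Bound Bad Inv)

/-- For ALL rational numbers `j` whose numerator and (positive) denominator are at a distance of at most `W` from the coordinates of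
`x`: the explicit bound `Bound δ C j`, i.e. `h_F(E) ≤ ((1 + δ) / 12) log N + C` for all elliptic curves `E` over `ℚ` of invariant `j` and all
`N` such that `E` has good reduction outside `N`. -/
def Near (δ C W : ℝ) (x : Fin 2 → ℝ) : Prop :=
  ∀ j : ℚ, |(j.num : ℝ) - x 0| ≤ W → |(j.den : ℝ) - x 1| ≤ W → Bound δ C j

/-- **Theorem.** There is an absolute constant `C` such that for all `δ > 0` and `κ ≥ 0` the property `Near δ C` holds for almost all values of vector
functions of two variables with few coincidences, on arbitrary finite sets of at least `X ^ δ₁` elements, where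
`2 - δ / (2 (1 + δ)) + 2 κ < δ₁ ≤ 2` (`OnProductsV`).
The tuples of the least residues modulo `p` of the coordinates (with respect to a basis over the field of `p` elements) of
`f(a, b) + g(a) + h(b)` in a field of `p ^ k` elements are such a function, with `X = p`, for all polynomials `f` over this
field with a monomial which contains both variables, arbitrary functions `g` and `h`, and arbitrary finite subsets. -/
theorem result :
    (∃ C : ℝ, 0 < C ∧ ∀ δ : ℝ, 0 < δ → ∀ κ : ℝ, 0 ≤ κ →
      OnProductsV 2 (2 - δ / (2 * (1 + δ)) + 2 * κ) κ (Near δ C)) ∧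
    ∀ (p : ℕ) [Fact p.Prime] (k : ℕ) (K : Type) [Field K] [Algebra (ZMod p) K] (e : Module.Basis (Fin k) (ZMod p) K)
      (d : ℕ) (f : MvPolynomial (Fin 2) K), f.totalDegree ≤ d → (∃ m ∈ f.support, m 0 ≠ 0 ∧ m 1 ≠ 0) →
      ∀ (g h : K → K) (A B : Finset K),
        RareV d A B (fun a b i => (((e.repr (MvPolynomial.eval ![a, b] f + g a + h b) i).val : ℕ) : ℝ)) := by
  classical
  refine ⟨?_, coordinates⟩
  obtain ⟨C, hC, h, -⟩ := AlmostAllWeilRestrictions.result.1
  refine ⟨C, hC, fun δ hδ κ hκ => ?_⟩
  have hθ : δ / (2 * (1 + δ)) ≤ 1 := by
    rw [div_le_one (by linarith)]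
    linarith
  have key := on_products_v (k := 2) {j : ℚ | ¬ Bound δ C j} (fun j => ![(j.num : ℝ), (j.den : ℝ)])
    (s := 2 - δ / (2 * (1 + δ))) (κ := κ) (by linarith) hκ (fun ε hε => by
      obtain ⟨M, hM, hc⟩ := h δ ε hδ.le hε
      refine ⟨M, fun X hX => ?_⟩
      obtain ⟨h1, h2, -⟩ := hc ℚ X hX
      have hX0 : 0 < X := by linarith
      have e : {j : ℚ | j ∈ {j : ℚ | ¬ Bound δ C j} ∧ ∀ i, |(![(j.num : ℝ), (j.den : ℝ)] : Fin 2 → ℝ) i| ≤ X} ⊆
          Bad ℚ δ C X := by
        rintro j ⟨h3, h4⟩
        have h5 := h4 0
        have h6 := h4 1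
        simp only [Matrix.cons_val_zero, Matrix.cons_val_one] at h5 h6
        refine ⟨?_, h3⟩
        change Height.logHeight₁ j ≤ Module.finrank ℚ ℚ * Real.log X
        rw [Module.finrank_self, Nat.cast_one, one_mul, Rat.logHeight₁_eq_log_max]
        have h7 : ((max j.num.natAbs j.den : ℕ) : ℝ) ≤ X := by
          rw [Nat.cast_max]
          refine max_le ?_ ?_
          · rw [Nat.cast_natAbs, Int.cast_abs]
            exact h5
          · rwa [abs_of_nonneg (Nat.cast_nonneg _)] at h6
        have h8 : (0 : ℝ) < ((max j.num.natAbs j.den : ℕ) : ℝ) := by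
          exact_mod_cast lt_of_lt_of_le j.den_pos (le_max_right _ _)
        exact Real.log_le_log h8 h7
      have hfin : (Bad ℚ δ C X).Finite := h1.subset fun x hx => hx.1
      rw [Module.finrank_self, pow_one] at h2
      exact ⟨hfin.subset e, le_trans (Nat.cast_le.2 (Set.ncard_le_ncard e hfin)) h2⟩)
  have e1 : 2 - δ / (2 * (1 + δ)) + ((2 : ℕ) : ℝ) * κ = 2 - δ / (2 * (1 + δ)) + 2 * κ := by norm_num
  rw [e1] at key
  refine key.mono fun W x _ h' j h3 h4 => ?_
  by_contra hcon
  refine h' j (fun i => ?_) hcon
  fin_cases i
  · simpa using h3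
  · simpa using h4

end Pool.Agent.Results.MP_07b2d0_nt.MixedPolynomials
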